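import Pool.Agent.K.MP_7badbe_co.C3

set_option autoImplicit false

namespace Pool.Agent.Results.MP_7badbe_co.FixedILimit

open Pool.Agent.P.MP_7badbe_co Filter Topology

/-- For fixed `i ≥ 2`, `1 - π(F_i) = (c_i + o(1)) / k ^ (i - 1)` for a constant `c_i > 0`, with
`i! ≤ c_i` for `i ≥ 3` and `c_i ≤ 8 i! log (4 i)`. -/
theorem result (i : ℕ) (hi : 2 ≤ i) : ∃ c : ℝ, 0 < c ∧ (3 ≤ i → (i.factorial : ℝ) ≤ c) ∧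
    c ≤ 8 * i.factorial * Real.log (4 * i) ∧ ∀ ε : ℝ, 0 < ε → ∃ k₀ : ℕ, ∀ k ≥ k₀, ∃ p : ℝ,
      Tendsto (fun n : ℕ => (exF k i n : ℝ) / n.choose k) atTop (𝓝 p) ∧
      (c - ε) / (k : ℝ) ^ (i - 1) ≤ 1 - p ∧ 1 - p ≤ (c + ε) / (k : ℝ) ^ (i - 1) :=
  limit_exists i hi

end Pool.Agent.Results.MP_7badbe_co.FixedILimit
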