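import Pool.Agent.K.MP_7badbe_co.C5

set_option autoImplicit false

namespace Pool.Agent.Results.MP_7badbe_co.SharpGrowing

open Pool.Agent.P.MP_7badbe_co Filter Topology

/-- `1 - π(F_{k-j}) = (1 ± ε) (2j-1) log k / C(k,j)` uniformly for `1 ≤ j ≤ k ^ (ε/21)`. -/
theorem result (ε : ℝ) (hε : 0 < ε) (hε1 : ε ≤ 1 / 2) : ∃ k₀ : ℕ, ∀ k ≥ k₀, ∀ j : ℕ, 1 ≤ j →
    (j : ℝ) ≤ (k : ℝ) ^ (ε / 21) → ∃ p : ℝ,
      Tendsto (fun n : ℕ => (exF k (k - j) n : ℝ) / n.choose k) atTop (𝓝 p) ∧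
      (1 - ε) * (2 * j - 1) * Real.log k / k.choose j ≤ 1 - p ∧
      1 - p ≤ (1 + ε) * (2 * j - 1) * Real.log k / k.choose j :=
  sharpG ε hε hε1

end Pool.Agent.Results.MP_7badbe_co.SharpGrowing
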