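import Pool.Agent.K.MP_7badbe_co.C8

set_option autoImplicit false

namespace Pool.Agent.Results.MP_7badbe_co.UniformLower

open Pool.Agent.P.MP_7badbe_co Filter Topology

/-- A lower bound on `1 - π(F_i)` with an absolute constant, for all `2 ≤ i ≤ k - 1` at once; here
`j = k - i` and `w = k / min i j`. -/
theorem result : ∃ c : ℝ, 0 < c ∧ ∀ k i j : ℕ, 2 ≤ i → 1 ≤ j → i + j = k →
    ∀ w : ℝ, w = (k : ℝ) / (min i j : ℕ) → ∃ p : ℝ,
      Tendsto (fun n : ℕ => (exF k i n : ℝ) / n.choose k) atTop (𝓝 p) ∧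
      c * min (i : ℝ) (min (j * Real.log k) (w * Real.log k / Real.log (2 * w)))
        / (k - 1).choose (i - 1) ≤ 1 - p := by
  refine ⟨1 / 200000000, by norm_num, fun k i j hi hj hk w hw => ?_⟩
  obtain ⟨m, rfl⟩ : ∃ m, k = m + 1 := ⟨k - 1, by omega⟩
  obtain rfl : j = m + 1 - i := by omega
  obtain ⟨p, hp⟩ := exists_limit (m := m) (i := i) (by omega)
  refine ⟨p, hp, ?_⟩
  rw [div_le_iff₀ (by exact_mod_cast Nat.choose_pos (by omega)), hw]
  exact lower_unif hi (by omega) hp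

end Pool.Agent.Results.MP_7badbe_co.UniformLower
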