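import Pool.Agent.K.MP_7badbe_co.C9

set_option autoImplicit false

namespace Pool.Agent.Results.MP_7badbe_co.UniformUpper

open Pool.Agent.P.MP_7badbe_co Filter Topology

/-- An upper bound on `1 - π(F_i)` with an absolute constant, for all `2 ≤ i ≤ k - 1` at once. -/
theorem result (k i : ℕ) (hi : 2 ≤ i) (hk : i < k) : ∃ p : ℝ,
    Tendsto (fun n : ℕ => (exF k i n : ℝ) / n.choose k) atTop (𝓝 p) ∧
    1 - p ≤ 360 * min (i * Real.log i) (Real.log (k.choose i)) / (k - 1).choose (i - 1) := by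
  obtain ⟨m, rfl⟩ : ∃ m, k = m + 1 := ⟨k - 1, by omega⟩
  obtain ⟨p, hp⟩ := exists_limit (m := m) (i := i) (by omega)
  refine ⟨p, hp, ?_⟩
  rw [le_div_iff₀ (by exact_mod_cast Nat.choose_pos (by omega))]
  exact upper_unif hi (by omega) hp

end Pool.Agent.Results.MP_7badbe_co.UniformUpper
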